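import Pool.Agent.H64.XL.Defs
import Pool.Agent.H56.UD.RA
import Pool.Agent.H80.AJ.Distort

/-!
# THEOREM DIM, chapter X, limits of windows: elementary lemmas
-/

set_option autoImplicit false

open Filter Topology Metric Set

namespace Pool.Agent.H23.XW

open Pool.Agent.H66.GEO (Bl BB)
open Pool.Agent.H64.XL (b1)

theorem ih_der {S : Set ℂ} (hS : IsOpen S) {g : ℂ → ℂ} (hg : DifferentiableOn ℂ g S) (hi : InjOn g S) {y : ℂ} (hy : y ∈ S) :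
    deriv g y ≠ 0 := by
  obtain ⟨R, hR, hRS⟩ := Metric.isOpen_iff.1 hS y hy
  have h := Pool.Agent.H80.AJ.deriv_ne hR (hg.mono hRS) (hi.mono hRS) (mem_closedBall_self (by positivity) : y ∈ closedBall y (R / 2))
  exact norm_pos_iff.1 h

theorem ih_inv {S : Set ℂ} (hS : IsOpen S) {g : ℂ → ℂ} (hg : DifferentiableOn ℂ g S) (hi : InjOn g S) {w : ℂ}
    (hw : w ∈ g '' S) : DifferentiableAt ℂ (Function.invFunOn g S) w := by
  have hkg : ∀ y ∈ S, Function.invFunOn g S (g y) = y := by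
    intro y hy
    have h1 : g y ∈ g '' S := mem_image_of_mem g hy
    exact hi (Function.invFunOn_mem h1) hy (Function.invFunOn_eq h1)
  obtain ⟨y, hy, rfl⟩ := hw
  have h1 : HasStrictDerivAt g (deriv g y) y := (hg.analyticAt (hS.mem_nhds hy)).hasStrictDerivAt
  have h2 : deriv g y ≠ 0 := ih_der hS hg hi hy
  have h3 : ∀ᶠ u in 𝓝 y, Function.invFunOn g S (g u) = u := by
    filter_upwards [hS.mem_nhds hy] with u hu
    exact hkg u hu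
  exact (h1.to_local_left_inverse h2 h3).hasDerivAt.differentiableAt

theorem ih_open {S : Set ℂ} (hS : IsOpen S) {g : ℂ → ℂ} (hg : DifferentiableOn ℂ g S) (hi : InjOn g S) : IsOpen (g '' S) := by
  rw [isOpen_iff_mem_nhds]
  rintro w ⟨y, hy, rfl⟩
  have h1 : HasStrictDerivAt g (deriv g y) y := (hg.analyticAt (hS.mem_nhds hy)).hasStrictDerivAt
  have h2 := h1.map_nhds_eq (ih_der hS hg hi hy)
  rw [← h2]
  exact image_mem_map (hS.mem_nhds hy)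

/-- values of a locally uniformly convergent sequence along a convergent sequence -/
theorem tl_seq {𝒰 : Ultrafilter ℕ} {G : ℕ → ℂ → ℂ} {g : ℂ → ℂ} {S : Set ℂ} (hS : IsOpen S)
    (hl : TendstoLocallyUniformlyOn G g (𝒰 : Filter ℕ) S) (hg : ContinuousOn g S) {x : ℕ → ℂ} {a : ℂ} (ha : a ∈ S)
    (hx : Tendsto x (𝒰 : Filter ℕ) (𝓝 a)) : Tendsto (fun n => G n (x n)) (𝒰 : Filter ℕ) (𝓝 (g a)) := by
  rw [Metric.tendsto_nhds]
  intro ε hε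
  rw [Metric.tendstoLocallyUniformlyOn_iff] at hl
  obtain ⟨t, ht, hu⟩ := hl (ε / 2) (by linarith) a ha
  rw [hS.nhdsWithin_eq ha] at ht
  have h1 : Tendsto (fun n => g (x n)) (𝒰 : Filter ℕ) (𝓝 (g a)) :=
    (hg.continuousAt (hS.mem_nhds ha)).tendsto.comp hx
  filter_upwards [hu, hx.eventually ht, Metric.tendsto_nhds.1 h1 (ε / 2) (by linarith)] with n h2 h3 h4
  have h5 := h2 (x n) h3
  rw [dist_comm] at h5
  have h6 := dist_triangle (G n (x n)) (g (x n)) (g a)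
  linarith

/-- the denominator of the degree two maps -/
theorem bl_den {a x : ℂ} (ha : ‖a‖ < 1) (hx : ‖x‖ ≤ 1) : 1 + (starRingEnd ℂ) a * x ^ 2 ≠ 0 := by
  intro h
  have h1 : (starRingEnd ℂ) a * x ^ 2 = -1 := by linear_combination h
  have h2 : ‖(starRingEnd ℂ) a * x ^ 2‖ = 1 := by rw [h1, norm_neg, norm_one]
  rw [norm_mul, norm_pow, RCLike.norm_conj] at h2
  have h3 : ‖x‖ ^ 2 ≤ 1 := pow_le_one₀ (norm_nonneg x) hx
  nlinarith [norm_nonneg a, norm_nonneg x]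

private theorem bl_sq (a y : ℂ) : Complex.normSq (1 + (starRingEnd ℂ) a * y) - Complex.normSq (y + a) =
    (1 - Complex.normSq a) * (1 - Complex.normSq y) := by
  simp only [Complex.normSq_apply, Complex.add_re, Complex.add_im, Complex.mul_re, Complex.mul_im, Complex.conj_re,
    Complex.conj_im, Complex.one_re, Complex.one_im]
  ring

theorem bl_norm {a x : ℂ} (ha : ‖a‖ < 1) (hx : ‖x‖ ≤ 1) : ‖Bl 1 a x‖ ≤ 1 ∧ (‖x‖ < 1 → ‖Bl 1 a x‖ < 1) ∧ (‖x‖ = 1 → ‖Bl 1 a x‖ = 1) := by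
  have hd := bl_den ha hx
  have hdp : 0 < ‖1 + (starRingEnd ℂ) a * x ^ 2‖ := norm_pos_iff.2 hd
  have h1 : Bl 1 a x = (x ^ 2 + a) / (1 + (starRingEnd ℂ) a * x ^ 2) := by simp [Bl]
  have h2 : ‖Bl 1 a x‖ = ‖x ^ 2 + a‖ / ‖1 + (starRingEnd ℂ) a * x ^ 2‖ := by rw [h1, norm_div]
  have h3 := bl_sq a (x ^ 2)
  rw [Complex.normSq_eq_norm_sq, Complex.normSq_eq_norm_sq, Complex.normSq_eq_norm_sq, Complex.normSq_eq_norm_sq, norm_pow] at h3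
  have ha2 : 0 < 1 - ‖a‖ ^ 2 := by nlinarith [norm_nonneg a]
  have hx2 : ‖x‖ ^ 2 ≤ 1 := pow_le_one₀ (norm_nonneg x) hx
  have hx4 : (‖x‖ ^ 2) ^ 2 ≤ 1 := pow_le_one₀ (by positivity) hx2
  refine ⟨?_, ?_, ?_⟩
  · rw [h2, div_le_one hdp]
    refine le_of_sq_le_sq ?_ hdp.le
    nlinarith
  · intro hx1
    rw [h2, div_lt_one hdp]
    have hx3 : ‖x‖ ^ 2 < 1 := by nlinarith [norm_nonneg x]
    have hx5 : (‖x‖ ^ 2) ^ 2 < 1 := by nlinarith [sq_nonneg (‖x‖)]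
    have : ‖x ^ 2 + a‖ ^ 2 < ‖1 + (starRingEnd ℂ) a * x ^ 2‖ ^ 2 := by nlinarith
    exact lt_of_pow_lt_pow_left₀ 2 hdp.le this
  · intro hx1
    rw [hx1] at h3
    rw [h2, div_eq_one_iff_eq hdp.ne']
    have : ‖x ^ 2 + a‖ ^ 2 = ‖1 + (starRingEnd ℂ) a * x ^ 2‖ ^ 2 := by nlinarith
    exact (pow_left_inj₀ (norm_nonneg _) hdp.le two_ne_zero).1 this

theorem bb_norm {a : ℕ → ℂ} : ∀ (s : ℕ), (∀ i < s, ‖a i‖ < 1) → ∀ x : ℂ, ‖x‖ ≤ 1 →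
    ‖BB b1 a s x‖ ≤ 1 ∧ (‖x‖ < 1 → ‖BB b1 a s x‖ < 1) ∧ (‖x‖ = 1 → ‖BB b1 a s x‖ = 1) := by
  intro s
  induction s with
  | zero =>
    intro _ x hx
    exact ⟨hx, fun h => h, fun h => h⟩
  | succ s ih =>
    intro ha x hx
    obtain ⟨h1, h2, h3⟩ := bl_norm (ha s (Nat.lt_succ_self s)) hx
    obtain ⟨h4, h5, h6⟩ := ih (fun i hi => ha i (by omega)) (Bl 1 (a s) x) h1
    exact ⟨h4, fun h => h5 (h2 h), fun h => h6 (h3 h)⟩

theorem bl_tend {𝒰 : Ultrafilter ℕ} {a x : ℕ → ℂ} {a' x' : ℂ} (ha : Tendsto a (𝒰 : Filter ℕ) (𝓝 a'))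
    (hx : Tendsto x (𝒰 : Filter ℕ) (𝓝 x')) (h1 : ‖a'‖ < 1) (h2 : ‖x'‖ ≤ 1) :
    Tendsto (fun n => Bl 1 (a n) (x n)) (𝒰 : Filter ℕ) (𝓝 (Bl 1 a' x')) := by
  have h3 : Tendsto (fun n => (starRingEnd ℂ) (a n)) (𝒰 : Filter ℕ) (𝓝 ((starRingEnd ℂ) a')) :=
    (Complex.continuous_conj.tendsto a').comp ha
  unfold Bl
  exact (((hx.pow 2).add ha).const_mul 1).div (tendsto_const_nhds.add (h3.mul (hx.pow 2))) (bl_den h1 h2)

theorem bb_tend {𝒰 : Ultrafilter ℕ} {a : ℕ → ℕ → ℂ} {a' : ℕ → ℂ} (ha : ∀ s, Tendsto (fun n => a n s) (𝒰 : Filter ℕ) (𝓝 (a' s))) :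
    ∀ (s : ℕ), (∀ i < s, ‖a' i‖ < 1) → ∀ (x : ℕ → ℂ) (x' : ℂ), Tendsto x (𝒰 : Filter ℕ) (𝓝 x') → ‖x'‖ ≤ 1 →
      Tendsto (fun n => BB b1 (a n) s (x n)) (𝒰 : Filter ℕ) (𝓝 (BB b1 a' s x')) := by
  intro s
  induction s with
  | zero =>
    intro _ x x' hx _
    exact hx
  | succ s ih =>
    intro h1 x x' hx hx1
    exact ih (fun i hi => h1 i (by omega)) _ _ (bl_tend (ha s) hx (h1 s (Nat.lt_succ_self s)) hx1)
      (bl_norm (h1 s (Nat.lt_succ_self s)) hx1).1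

/-- limits of bounded sequences -/
theorem lim_bd (𝒰 : Ultrafilter ℕ) {v : ℕ → ℂ} {C : ℝ} (h : ∀ᶠ n in (𝒰 : Filter ℕ), ‖v n‖ ≤ C) :
    ∃ a : ℂ, ‖a‖ ≤ C ∧ Tendsto v (𝒰 : Filter ℕ) (𝓝 a) := by
  have h1 : ((𝒰.map v : Ultrafilter ℂ) : Filter ℂ) ≤ 𝓟 (closedBall (0 : ℂ) C) := by
    rw [Ultrafilter.coe_map, le_principal_iff, mem_map]
    filter_upwards [h] with n hn
    simpa using hn
  obtain ⟨a, ha, hl⟩ := (isCompact_closedBall (0 : ℂ) C).ultrafilter_le_nhds (𝒰.map v) h1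
  exact ⟨a, by simpa using ha, hl⟩

theorem lim_K (𝒰 : Ultrafilter ℕ) {K : Set ℂ} (hK : IsCompact K) {v : ℕ → ℂ} (h : ∀ᶠ n in (𝒰 : Filter ℕ), v n ∈ K) :
    ∃ a ∈ K, Tendsto v (𝒰 : Filter ℕ) (𝓝 a) := by
  have h1 : ((𝒰.map v : Ultrafilter ℂ) : Filter ℂ) ≤ 𝓟 K := by
    rw [Ultrafilter.coe_map, le_principal_iff, mem_map]
    exact h
  obtain ⟨a, ha, hl⟩ := hK.ultrafilter_le_nhds (𝒰.map v) h1
  exact ⟨a, ha, hl⟩

end Pool.Agent.H23.XW
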