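import Pool.Agent.H64.XL.Defs

/-!
# THEOREM DIM, chapter X (MP_8f2e1c_an, think 1842, section 3.6): limits of the windows, definitions

`WS`: the windows `X_s = Φ n s '' ball 0 1` in the scale of `X_0` at `c` (`c = 0`, `n`: number in the sequence, `s`: number of the
window), `F n s : X_(s+1) → X_s` of degree two. `WL`: the limits along the ultrafilter, in the form of `XS` of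
H66/GEO/Defs (`ω = b1`), together with the convergence. `TS`: sequences of towers (H64/XL `Tw`), with the sizes, the crossing points and
`no attraction` (the hypotheses of the chapter, from H3/SZ and H56/WP).
-/

set_option autoImplicit false

open Filter Topology Metric Set

namespace Pool.Agent.H23.XW

open Pool.Agent.H66.GEO (Bl BB)
open Pool.Agent.H56.UD (Ph dm Pn)
open Pool.Agent.H64.XL (b1 Wt Tw)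

/-- sequences of windows in the scale of `X_0` -/
structure WS (𝒰 : Ultrafilter ℕ) (th r : ℝ) (P : ℕ → Set ℂ) (Φ F : ℕ → ℕ → ℂ → ℂ) (α : ℕ → ℕ → ℂ) : Prop where
  th0 : 0 < th
  thr : th < r
  r1 : r < 1
  Pc : ∀ᶠ n in (𝒰 : Filter ℕ), IsClosed (P n)
  dΦ : ∀ s, ∀ᶠ n in (𝒰 : Filter ℕ), DifferentiableOn ℂ (Φ n s) (ball 0 1)
  iΦ : ∀ s, ∀ᶠ n in (𝒰 : Filter ℕ), InjOn (Φ n s) (ball 0 1)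
  zΦ : ∀ s, ∀ᶠ n in (𝒰 : Filter ℕ), Φ n s 0 = 0
  lo : ∀ s, ∃ C : ℝ, 0 < C ∧ ∀ᶠ n in (𝒰 : Filter ℕ), C ≤ ‖deriv (Φ n s) 0‖
  up : ∀ s, ∃ C : ℝ, ∀ᶠ n in (𝒰 : Filter ℕ), ‖deriv (Φ n s) 0‖ ≤ C
  bd : ∃ C : ℝ, ∀ᶠ n in (𝒰 : Filter ℕ), ∀ x ∈ ball (0 : ℂ) 1, ‖Φ n 0 x‖ ≤ C
  sy : ∀ s, ∀ x ∈ ball (0 : ℂ) 1, Tendsto (fun n => Φ n s (-x) ^ 2 - Φ n s x ^ 2) (𝒰 : Filter ℕ) (𝓝 0)
  al : ∀ s, ∀ᶠ n in (𝒰 : Filter ℕ), ‖α n s‖ < 1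
  cv : ∀ s, ∀ᶠ n in (𝒰 : Filter ℕ), ‖BB b1 (α n) s (α n s)‖ ≤ th
  rel : ∀ s, ∀ᶠ n in (𝒰 : Filter ℕ), ∀ x ∈ ball (0 : ℂ) 1, F n s (Φ n (s + 1) x) = Φ n s (Bl 1 (α n s) x)
  off : ∀ s, ∀ᶠ n in (𝒰 : Filter ℕ), ∀ x ∈ ball (0 : ℂ) 1, th < ‖BB b1 (α n) s x‖ → Φ n s x ∉ P n
  cr : ∀ s : ℕ, ∀ᶠ n in (𝒰 : Filter ℕ), ∃ x y : ℂ, ‖x‖ = r ∧ ‖y‖ < 1 ∧ ‖BB b1 (α n) (s + 1) y‖ = r ∧
    Φ n (s + 1) y = Φ n 0 x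

/-- the limit: the fields of `XS` (H66/GEO/Defs) which do not involve lifts, and the convergence -/
structure WL (𝒰 : Ultrafilter ℕ) (th r : ℝ) (P : ℕ → Set ℂ) (Φ F : ℕ → ℕ → ℂ → ℂ) (α : ℕ → ℕ → ℂ)
    (φ F' : ℕ → ℂ → ℂ) (α' : ℕ → ℂ) : Prop where
  cφ : ∀ s, TendstoLocallyUniformlyOn (fun n => Φ n s) (φ s) (𝒰 : Filter ℕ) (ball 0 1)
  cα : ∀ s, Tendsto (fun n => α n s) (𝒰 : Filter ℕ) (𝓝 (α' s))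
  cK : ∀ s, ∀ K : Set ℂ, IsCompact K → K ⊆ φ s '' ball 0 1 → ∀ᶠ n in (𝒰 : Filter ℕ), K ⊆ Φ n s '' ball 0 1
  cF : ∀ s, ∀ K : Set ℂ, IsCompact K → K ⊆ φ (s + 1) '' ball 0 1 → ∀ ε : ℝ, 0 < ε →
    ∀ᶠ n in (𝒰 : Filter ℕ), ∀ w ∈ K, ‖F n s w - F' s w‖ < ε
  zφ : ∀ s, φ s 0 = 0
  dφ : ∀ s, DifferentiableOn ℂ (φ s) (ball 0 1)
  iφ : ∀ s, InjOn (φ s) (ball 0 1)
  oφ : ∀ s, ∀ x ∈ ball (0 : ℂ) 1, φ s (-x) = - φ s x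
  bφ : Bornology.IsBounded (φ 0 '' ball 0 1)
  hα : ∀ s, ‖α' s‖ < 1
  cv : ∀ s, ‖BB b1 α' s (α' s)‖ ≤ th
  dF : ∀ s, DifferentiableOn ℂ (F' s) (φ (s + 1) '' ball 0 1)
  rel : ∀ s, ∀ x ∈ ball (0 : ℂ) 1, F' s (φ (s + 1) x) = φ s (Bl 1 (α' s) x)
  off : ∀ s, ∀ x ∈ ball (0 : ℂ) 1, th < ‖BB b1 α' s x‖ → φ s x ∉ Ph 𝒰 P
  cr : ∀ s : ℕ, ∃ x y : ℂ, ‖x‖ = r ∧ ‖y‖ < 1 ∧ ‖BB b1 α' (s + 1) y‖ = r ∧ φ (s + 1) y = φ 0 x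

/-- sequences of towers with heights tending to infinity, in shrinking balls, with the consequences of H3/SZ -/
structure TS (𝒰 : Ultrafilter ℕ) (f : ℂ → ℂ) (U J P : Set ℂ) (δ : ℝ) (c z : ℂ) (θ r M : ℝ) (ε : ℕ → ℝ) (S : ℕ → ℕ)
    (k t : ℕ → ℕ → ℕ) (α x : ℕ → ℕ → ℂ) (χ : ℕ → ℕ → ℂ → ℂ) : Prop where
  θ0 : 0 < θ
  θr : θ < r
  r1 : r < 1
  εt : Tendsto ε (𝒰 : Filter ℕ) (𝓝 0)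
  w : ∀ᶠ n in (𝒰 : Filter ℕ), Wt f U J P δ c θ M (ε n) (χ n 0)
  tw : ∀ᶠ n in (𝒰 : Filter ℕ), Tw f U J P δ c z θ r (S n) (k n) (t n) (α n) (x n) (χ n)
  St : ∀ s : ℕ, ∀ᶠ n in (𝒰 : Filter ℕ), s ≤ S n
  lo : ∀ s, ∃ C : ℝ, 0 < C ∧ ∀ᶠ n in (𝒰 : Filter ℕ), C * ‖deriv (χ n 0) 0‖ ≤ ‖deriv (χ n s) 0‖
  up : ∀ s, ∃ C : ℝ, ∀ᶠ n in (𝒰 : Filter ℕ), ‖deriv (χ n s) 0‖ ≤ C * ‖deriv (χ n 0) 0‖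
  cr : ∀ s : ℕ, ∀ᶠ n in (𝒰 : Filter ℕ), ∃ x y : ℂ, ‖x‖ = r ∧ ‖y‖ < 1 ∧ ‖BB b1 (α n) (s + 1) y‖ = r ∧
    χ n (s + 1) y = χ n 0 x

/-- the rescaled windows -/
noncomputable def Xn (c : ℂ) (χ : ℕ → ℕ → ℂ → ℂ) (n s : ℕ) (v : ℂ) : ℂ := (χ n s v - c) / deriv (χ n 0) 0

/-- the rescaled iterates -/
noncomputable def Tn (f : ℂ → ℂ) (c : ℂ) (k : ℕ → ℕ → ℕ) (χ : ℕ → ℕ → ℂ → ℂ) (n s : ℕ) (w : ℂ) : ℂ :=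
  (f^[k n s] (c + deriv (χ n 0) 0 * w) - c) / deriv (χ n 0) 0

end Pool.Agent.H23.XW
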