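import Pool.Agent.H23.XW.Defs
import Pool.Agent.H23.XW.Bas
import Pool.Agent.H3.SZ.Bb

/-!
# THEOREM DIM, chapter X: the limits of the windows exist (end theorem of H23/XW)
-/

set_option autoImplicit false

open Filter Topology Metric Set

namespace Pool.Agent.H23.XW

open Pool.Agent.H66.GEO (Bl BB)
open Pool.Agent.H56.UD (Ph ulim_loc ulim_inj ulim_pre ulim_deriv)
open Pool.Agent.H64.XL (b1)

variable {𝒰 : Ultrafilter ℕ} {th r : ℝ} {P : ℕ → Set ℂ} {Φ F : ℕ → ℕ → ℂ → ℂ} {α : ℕ → ℕ → ℂ}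

/-- the limits of the windows -/
private theorem lim_phi (h : WS 𝒰 th r P Φ F α) (s : ℕ) : ∃ g : ℂ → ℂ, DifferentiableOn ℂ g (ball 0 1) ∧
    TendstoLocallyUniformlyOn (fun n => Φ n s) g (𝒰 : Filter ℕ) (ball 0 1) := by
  obtain ⟨C, hC⟩ := h.up s
  refine ulim_loc 𝒰 isOpen_ball ?_
  intro u hu
  have hu1 : ‖u‖ < 1 := by simpa using hu
  obtain ⟨K, hK1, hK⟩ := Pool.Agent.H3.SZ.gr (ρ := (1 + ‖u‖) / 2) (by linarith)
  refine ⟨(1 - ‖u‖) / 2, K * C, by linarith, ?_, ?_⟩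
  · intro v hv
    have h1 : ‖v - u‖ < (1 - ‖u‖) / 2 := by simpa [dist_eq_norm] using hv
    have h2 := norm_add_le (v - u) u
    rw [sub_add_cancel] at h2
    simp only [mem_ball, dist_zero_right]
    linarith
  · filter_upwards [hC, h.dΦ s, h.iΦ s, h.zΦ s] with n h1 h2 h3 h4
    have hsub : ∀ v ∈ ball u ((1 - ‖u‖) / 2), ‖v‖ ≤ (1 + ‖u‖) / 2 ∧ ‖v‖ < 1 := by
      intro v hv
      have h5 : ‖v - u‖ < (1 - ‖u‖) / 2 := by simpa [dist_eq_norm] using hv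
      have h6 := norm_add_le (v - u) u
      rw [sub_add_cancel] at h6
      exact ⟨by linarith, by linarith⟩
    refine ⟨h2.mono fun v hv => by simpa using (hsub v hv).2, fun v hv => ?_⟩
    have h7 := hK (Φ n s) h2 h3 v (hsub v hv).1
    rw [h4, sub_zero] at h7
    calc ‖Φ n s v‖ ≤ K * ‖deriv (Φ n s) 0‖ := h7
      _ ≤ K * C := by
          gcongr

/-- the limits of the parameters -/
private theorem lim_al (h : WS 𝒰 th r P Φ F α) : ∃ α' : ℕ → ℂ, (∀ s, Tendsto (fun n => α n s) (𝒰 : Filter ℕ) (𝓝 (α' s))) ∧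
    (∀ s, ‖α' s‖ < 1) ∧ ∀ s, ‖BB b1 α' s (α' s)‖ ≤ th := by
  have h1 : ∀ s, ∃ a : ℂ, ‖a‖ ≤ 1 ∧ Tendsto (fun n => α n s) (𝒰 : Filter ℕ) (𝓝 a) := fun s =>
    lim_bd 𝒰 ((h.al s).mono fun n hn => hn.le)
  choose α' h2 h3 using h1
  have hth1 : th < 1 := h.thr.trans h.r1
  have h4 : ∀ s, (∀ i < s, ‖α' i‖ < 1) → ‖BB b1 α' s (α' s)‖ ≤ th := by
    intro s hs
    have h5 := (bb_tend h3 s hs _ _ (h3 s) (h2 s)).norm
    exact le_of_tendsto h5 (h.cv s)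
  have h6 : ∀ s, ‖α' s‖ < 1 := by
    intro s
    induction s using Nat.strong_induction_on with
    | _ s ih =>
      refine lt_of_le_of_ne (h2 s) fun h7 => ?_
      have h8 := (bb_norm s ih (α' s) (h2 s)).2.2 h7
      have h9 := h4 s ih
      linarith
  exact ⟨α', h3, h6, fun s => h4 s fun i _ => h6 i⟩

private theorem lim_inj (h : WS 𝒰 th r P Φ F α) {s : ℕ} {g : ℂ → ℂ}
    (hl : TendstoLocallyUniformlyOn (fun n => Φ n s) g (𝒰 : Filter ℕ) (ball 0 1)) : InjOn g (ball 0 1) := by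
  refine ulim_inj 𝒰 isOpen_ball (convex_ball 0 1).isPreconnected ((h.dΦ s).and (h.iΦ s)) hl ?_
  by_contra hcon
  push Not at hcon
  obtain ⟨C, hC, hC1⟩ := h.lo s
  have h1 := (ulim_deriv 𝒰 isOpen_ball (h.dΦ s) hl).tendsto_at (mem_ball_self one_pos : (0 : ℂ) ∈ ball (0 : ℂ) 1)
  have h2 : C ≤ ‖deriv g 0‖ := ge_of_tendsto h1.norm hC1
  have h3 : deriv g 0 = 0 := by
    have h4 : g =ᶠ[𝓝 0] fun _ => g 0 := by
      filter_upwards [ball_mem_nhds (0 : ℂ) one_pos] with v hv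
      exact hcon v hv 0 (mem_ball_self one_pos)
    rw [h4.deriv_eq]
    exact deriv_const _ _
  rw [h3, norm_zero] at h2
  linarith

private theorem lim_odd (h : WS 𝒰 th r P Φ F α) {s : ℕ} {g : ℂ → ℂ} (hi : InjOn g (ball 0 1)) (h0 : g 0 = 0)
    (hl : TendstoLocallyUniformlyOn (fun n => Φ n s) g (𝒰 : Filter ℕ) (ball 0 1)) :
    ∀ x ∈ ball (0 : ℂ) 1, g (-x) = - g x := by
  intro x hx
  have hx' : -x ∈ ball (0 : ℂ) 1 := by simpa using hx
  have h1 := ((hl.tendsto_at hx').pow 2).sub ((hl.tendsto_at hx).pow 2)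
  have h2 : g (-x) ^ 2 - g x ^ 2 = 0 := tendsto_nhds_unique h1 (h.sy s x hx)
  have h3 : (g (-x) - g x) * (g (-x) + g x) = 0 := by linear_combination h2
  rcases mul_eq_zero.1 h3 with h4 | h4
  · have h5 : -x = x := hi hx' hx (sub_eq_zero.1 h4)
    have h6 : x = 0 := by
      have : (2 : ℂ) * x = 0 := by linear_combination (-1 : ℂ) * h5
      simpa using this
    rw [h6, neg_zero, h0, neg_zero]
  · exact eq_neg_of_add_eq_zero_left h4

theorem ws_lim (h : WS 𝒰 th r P Φ F α) : ∃ (φ F' : ℕ → ℂ → ℂ) (α' : ℕ → ℂ), WL 𝒰 th r P Φ F α φ F' α' := by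
  choose φ hφd hφl using lim_phi h
  obtain ⟨α', ha, ha1, hcv⟩ := lim_al h
  have hφi : ∀ s, InjOn (φ s) (ball 0 1) := fun s => lim_inj h (hφl s)
  have h01 : (0 : ℂ) ∈ ball (0 : ℂ) 1 := mem_ball_self one_pos
  have hφ0 : ∀ s, φ s 0 = 0 := fun s => by
    refine tendsto_nhds_unique ((hφl s).tendsto_at h01) ?_
    exact tendsto_const_nhds.congr' ((h.zΦ s).mono fun n hn => hn.symm)
  have hbl : ∀ (s : ℕ) (x : ℂ), x ∈ ball (0 : ℂ) 1 → Bl 1 (α' s) x ∈ ball (0 : ℂ) 1 := by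
    intro s x hx
    have hx1 : ‖x‖ < 1 := by simpa using hx
    simpa using (bl_norm (ha1 s) hx1.le).2.1 hx1
  have hbld : ∀ s : ℕ, DifferentiableOn ℂ (Bl 1 (α' s)) (ball 0 1) := by
    intro s x hx
    have hx1 : ‖x‖ < 1 := by simpa using hx
    have h1 : DifferentiableAt ℂ (Bl 1 (α' s)) x := by
      unfold Bl
      refine DifferentiableAt.div (by fun_prop) (by fun_prop) (bl_den (ha1 s) hx1.le)
    exact h1.differentiableWithinAt
  obtain ⟨F', hF'⟩ : ∃ F' : ℕ → ℂ → ℂ, F' = fun s w => φ s (Bl 1 (α' s) (Function.invFunOn (φ (s + 1)) (ball 0 1) w)) := ⟨_, rfl⟩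
  have hrel : ∀ s, ∀ x ∈ ball (0 : ℂ) 1, F' s (φ (s + 1) x) = φ s (Bl 1 (α' s) x) := by
    intro s x hx
    have h1 : φ (s + 1) x ∈ φ (s + 1) '' ball 0 1 := mem_image_of_mem _ hx
    have h2 : Function.invFunOn (φ (s + 1)) (ball 0 1) (φ (s + 1) x) = x :=
      hφi (s + 1) (Function.invFunOn_mem h1) hx (Function.invFunOn_eq h1)
    rw [hF']
    simp only [h2]
  have hdF : ∀ s, DifferentiableOn ℂ (F' s) (φ (s + 1) '' ball 0 1) := by
    intro s w hw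
    have h1 : DifferentiableAt ℂ (Function.invFunOn (φ (s + 1)) (ball 0 1)) w := ih_inv isOpen_ball (hφd (s + 1)) (hφi (s + 1)) hw
    have h2 : Function.invFunOn (φ (s + 1)) (ball 0 1) w ∈ ball (0 : ℂ) 1 := Function.invFunOn_mem hw
    have h3 : DifferentiableAt ℂ (Bl 1 (α' s)) (Function.invFunOn (φ (s + 1)) (ball 0 1) w) :=
      (hbld s).differentiableAt (isOpen_ball.mem_nhds h2)
    have h4 : DifferentiableAt ℂ (φ s) (Bl 1 (α' s) (Function.invFunOn (φ (s + 1)) (ball 0 1) w)) :=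
      (hφd s).differentiableAt (isOpen_ball.mem_nhds (hbl s _ h2))
    have h5 : DifferentiableAt ℂ (F' s) w := by
      rw [hF']
      exact DifferentiableAt.comp (g := φ s) w h4 (DifferentiableAt.comp (g := Bl 1 (α' s)) w h3 h1)
    exact h5.differentiableWithinAt
  -- points converging to a point of the limit window
  have hpre : ∀ (s : ℕ) (w : ℕ → ℂ) (x : ℂ), x ∈ ball (0 : ℂ) 1 → Tendsto w (𝒰 : Filter ℕ) (𝓝 (φ s x)) →
      ∃ v : ℕ → ℂ, (∀ᶠ n in (𝒰 : Filter ℕ), v n ∈ ball (0 : ℂ) 1 ∧ Φ n s (v n) = w n) ∧ Tendsto v (𝒰 : Filter ℕ) (𝓝 x) :=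
    fun s w x hx hw => ulim_pre 𝒰 isOpen_ball (h.dΦ s) (hφl s) (hφi s) hx hw
  refine ⟨φ, F', α', ⟨hφl, ha, ?_, ?_, hφ0, hφd, hφi, fun s => lim_odd h (hφi s) (hφ0 s) (hφl s), ?_, ha1, hcv, hdF, hrel, ?_, ?_⟩⟩
  · -- cK
    intro s K hK hKs
    by_contra hcon
    rw [← Ultrafilter.eventually_not] at hcon
    have h1 : ∀ n : ℕ, ∃ w : ℂ, ¬ K ⊆ Φ n s '' ball 0 1 → w ∈ K ∧ w ∉ Φ n s '' ball 0 1 := by
      intro n
      by_cases hn : K ⊆ Φ n s '' ball 0 1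
      · exact ⟨0, fun h => absurd hn h⟩
      · obtain ⟨w, hw1, hw2⟩ := not_subset.1 hn
        exact ⟨w, fun _ => ⟨hw1, hw2⟩⟩
    choose w hw using h1
    obtain ⟨a, haK, hla⟩ := lim_K 𝒰 hK (v := w) (hcon.mono fun n hn => (hw n hn).1)
    obtain ⟨x, hx, hxa⟩ := hKs haK
    rw [← hxa] at hla
    obtain ⟨v, hv, -⟩ := hpre s w x hx hla
    obtain ⟨n, hn1, hn2⟩ := (hcon.and hv).exists
    exact (hw n hn1).2 ⟨v n, hn2.1, hn2.2⟩
  · -- cF
    intro s K hK hKs ε hε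
    by_contra hcon
    rw [← Ultrafilter.eventually_not] at hcon
    have h1 : ∀ n : ℕ, ∃ w : ℂ, (¬ ∀ w ∈ K, ‖F n s w - F' s w‖ < ε) → w ∈ K ∧ ε ≤ ‖F n s w - F' s w‖ := by
      intro n
      by_cases hn : ∀ w ∈ K, ‖F n s w - F' s w‖ < ε
      · exact ⟨0, fun h => absurd hn h⟩
      · push Not at hn
        obtain ⟨w, hw1, hw2⟩ := hn
        exact ⟨w, fun _ => ⟨hw1, hw2⟩⟩
    choose w hw using h1
    obtain ⟨a, haK, hla⟩ := lim_K 𝒰 hK (v := w) (hcon.mono fun n hn => (hw n hn).1)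
    obtain ⟨x, hx, hxa⟩ := hKs haK
    have hla' := hla
    rw [← hxa] at hla'
    obtain ⟨v, hv, hvx⟩ := hpre (s + 1) w x hx hla'
    have hx1 : ‖x‖ < 1 := by simpa using hx
    have h2 : Tendsto (fun n => Bl 1 (α n s) (v n)) (𝒰 : Filter ℕ) (𝓝 (Bl 1 (α' s) x)) := bl_tend (ha s) hvx (ha1 s) hx1.le
    have h3 := tl_seq isOpen_ball (hφl s) (hφd s).continuousOn (hbl s x hx) h2
    have h4 : Tendsto (fun n => F n s (w n)) (𝒰 : Filter ℕ) (𝓝 (F' s a)) := by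
      rw [← hxa, hrel s x hx]
      refine h3.congr' ?_
      filter_upwards [hv, h.rel s] with n hn1 hn2
      rw [← hn1.2, hn2 (v n) hn1.1]
    have h5 : Tendsto (fun n => F' s (w n)) (𝒰 : Filter ℕ) (𝓝 (F' s a)) := by
      have h6 : IsOpen (φ (s + 1) '' ball 0 1) := ih_open isOpen_ball (hφd (s + 1)) (hφi (s + 1))
      exact ((hdF s).continuousOn.continuousAt (h6.mem_nhds (hKs haK))).tendsto.comp hla
    have h7 := (h4.sub h5).norm
    rw [sub_self, norm_zero] at h7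
    obtain ⟨n, hn1, hn2⟩ := (hcon.and (h7.eventually (gt_mem_nhds hε))).exists
    have := (hw n hn1).2
    linarith
  · -- bφ
    obtain ⟨C, hC⟩ := h.bd
    refine (isBounded_iff_forall_norm_le.2 ⟨C, ?_⟩)
    rintro w ⟨x, hx, rfl⟩
    exact le_of_tendsto ((hφl 0).tendsto_at hx).norm (hC.mono fun n hn => hn x hx)
  · -- off
    intro s x hx hth hP
    have hx1 : ‖x‖ < 1 := by simpa using hx
    have h1 : ∀ n : ℕ, ∃ y : ℂ, (IsClosed (P n) ∧ (P n).Nonempty) → y ∈ P n ∧ infDist (φ s x) (P n) = dist (φ s x) y := by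
      intro n
      by_cases hn : IsClosed (P n) ∧ (P n).Nonempty
      · obtain ⟨y, hy1, hy2⟩ := hn.1.exists_infDist_eq_dist hn.2 (φ s x)
        exact ⟨y, fun _ => ⟨hy1, hy2⟩⟩
      · exact ⟨0, fun h => absurd h hn⟩
    choose y hy using h1
    have h2 : Tendsto y (𝒰 : Filter ℕ) (𝓝 (φ s x)) := by
      rw [Metric.tendsto_nhds]
      intro ε hε
      filter_upwards [hP ε hε, h.Pc] with n hn hc
      obtain ⟨p, hp, hp2⟩ := hn
      have h3 := (hy n ⟨hc, ⟨p, hp⟩⟩).2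
      have h4 := infDist_le_dist_of_mem (x := φ s x) hp
      rw [dist_comm, ← h3]
      rw [dist_comm, dist_eq_norm] at h4
      linarith
    obtain ⟨v, hv, hvx⟩ := hpre s y x hx h2
    have h5 := (bb_tend ha s (fun i _ => ha1 i) v x hvx hx1.le).norm
    obtain ⟨n, ⟨⟨⟨hn1, hn2⟩, hn3⟩, hn4⟩, hn5⟩ := ((((hv.and h.Pc).and (hP 1 one_pos)).and
      (h5.eventually (lt_mem_nhds hth))).and (h.off s)).exists
    obtain ⟨p, hp, -⟩ := hn3
    refine hn5 (v n) hn1.1 hn4 ?_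
    rw [hn1.2]
    exact (hy n ⟨hn2, ⟨p, hp⟩⟩).1
  · -- cr
    intro s
    have h1 : ∀ n : ℕ, ∃ x y : ℂ, (∃ x y : ℂ, ‖x‖ = r ∧ ‖y‖ < 1 ∧ ‖BB b1 (α n) (s + 1) y‖ = r ∧ Φ n (s + 1) y = Φ n 0 x) →
        ‖x‖ = r ∧ ‖y‖ < 1 ∧ ‖BB b1 (α n) (s + 1) y‖ = r ∧ Φ n (s + 1) y = Φ n 0 x := by
      intro n
      by_cases hn : ∃ x y : ℂ, ‖x‖ = r ∧ ‖y‖ < 1 ∧ ‖BB b1 (α n) (s + 1) y‖ = r ∧ Φ n (s + 1) y = Φ n 0 x
      · obtain ⟨x, y, hxy⟩ := hn
        exact ⟨x, y, fun _ => hxy⟩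
      · exact ⟨0, 0, fun h => absurd h hn⟩
    choose x y hxy using h1
    have h2 : ∀ᶠ n in (𝒰 : Filter ℕ), ‖x n‖ = r ∧ ‖y n‖ < 1 ∧ ‖BB b1 (α n) (s + 1) (y n)‖ = r ∧ Φ n (s + 1) (y n) = Φ n 0 (x n) :=
      (h.cr s).mono fun n hn => hxy n hn
    obtain ⟨a, -, hla⟩ := lim_bd 𝒰 (v := x) (C := r) (h2.mono fun n hn => hn.1.le)
    obtain ⟨b, hb, hlb⟩ := lim_bd 𝒰 (v := y) (C := 1) (h2.mono fun n hn => hn.2.1.le)
    have hanorm : ‖a‖ = r := by
      refine tendsto_nhds_unique hla.norm ?_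
      exact tendsto_const_nhds.congr' (h2.mono fun n hn => hn.1.symm)
    have h3 := (bb_tend ha (s + 1) (fun i _ => ha1 i) y b hlb hb).norm
    have hbnorm : ‖BB b1 α' (s + 1) b‖ = r := by
      refine tendsto_nhds_unique h3 ?_
      exact tendsto_const_nhds.congr' (h2.mono fun n hn => hn.2.2.1.symm)
    have hb1 : ‖b‖ < 1 := by
      refine lt_of_le_of_ne hb fun h4 => ?_
      have h5 := (bb_norm (s + 1) (fun i _ => ha1 i) b hb).2.2 h4
      have h6 := h.r1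
      linarith
    have ha1' : a ∈ ball (0 : ℂ) 1 := by
      simp only [mem_ball, dist_zero_right, hanorm]
      exact h.r1
    have hb1' : b ∈ ball (0 : ℂ) 1 := by simpa using hb1
    have h7 := tl_seq isOpen_ball (hφl (s + 1)) (hφd (s + 1)).continuousOn hb1' hlb
    have h8 := tl_seq isOpen_ball (hφl 0) (hφd 0).continuousOn ha1' hla
    refine ⟨a, b, hanorm, hb1, hbnorm, ?_⟩
    exact tendsto_nhds_unique h7 (h8.congr' (h2.mono fun n hn => hn.2.2.2.symm))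

theorem wl_open {φ F' : ℕ → ℂ → ℂ} {α' : ℕ → ℂ} (h : WL 𝒰 th r P Φ F α φ F' α') (s : ℕ) : IsOpen (φ s '' ball 0 1) :=
  ih_open isOpen_ball (h.dφ s) (h.iφ s)

/-- `F_1(0) ≠ 0` unless there is attraction -/
theorem ws_F0 {φ F' : ℕ → ℂ → ℂ} {α' : ℕ → ℂ} (h : WL 𝒰 th r P Φ F α φ F' α') (h0 : F' 0 0 = 0) :
    ∃ ε : ℝ, 0 < ε ∧ closedBall (0 : ℂ) ε ⊆ φ 1 '' ball 0 1 ∧ ∀ᶠ n in (𝒰 : Filter ℕ), ∀ w ∈ ball (0 : ℂ) ε, F n 0 w ∈ ball (0 : ℂ) ε := by
  have h01 : (0 : ℂ) ∈ ball (0 : ℂ) 1 := mem_ball_self one_pos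
  have hopen := wl_open h 1
  have hmem : (0 : ℂ) ∈ φ 1 '' ball 0 1 := ⟨0, h01, h.zφ 1⟩
  have hdiff : DifferentiableAt ℂ (F' 0) 0 := (h.dF 0).differentiableAt (hopen.mem_nhds hmem)
  have hev : (fun w => F' 0 (-w)) =ᶠ[𝓝 0] F' 0 := by
    filter_upwards [hopen.mem_nhds hmem] with w hw
    obtain ⟨x, hx, rfl⟩ := hw
    have hx' : -x ∈ ball (0 : ℂ) 1 := by simpa using hx
    have h1 := h.rel 0 (-x) hx'
    have h2 := h.rel 0 x hx
    have h3 : Bl 1 (α' 0) (-x) = Bl 1 (α' 0) x := by simp [Bl]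
    have h4 := h.oφ 1 x hx
    simp only [zero_add] at h1 h2
    rw [← h4, h1, h2, h3]
  have hd0 : deriv (F' 0) 0 = 0 := by
    have h1 : HasDerivAt (fun w => F' 0 (-w)) (-(deriv (F' 0) 0)) 0 := by
      have h2 : HasDerivAt (F' 0) (deriv (F' 0) 0) (-0 : ℂ) := by
        rw [neg_zero]
        exact hdiff.hasDerivAt
      have h3 := HasDerivAt.comp (0 : ℂ) h2 (hasDerivAt_neg (0 : ℂ))
      simpa [Function.comp_def] using h3
    have h4 := h1.congr_of_eventuallyEq hev.symm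
    have h5 := h4.unique hdiff.hasDerivAt
    have h6 : (2 : ℂ) * deriv (F' 0) 0 = 0 := by linear_combination (-1 : ℂ) * h5
    simpa using h6
  have h1 : HasDerivAt (F' 0) 0 0 := by
    have := hdiff.hasDerivAt
    rwa [hd0] at this
  have h2 := (hasDerivAt_iff_isLittleO.1 h1).def (c := 1 / 2) (by norm_num)
  obtain ⟨e1, he1, h3⟩ := Metric.eventually_nhds_iff.1 h2
  obtain ⟨e2, he2, h4⟩ := Metric.isOpen_iff.1 hopen 0 hmem
  have hm : 0 < min e1 e2 := lt_min he1 he2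
  refine ⟨min e1 e2 / 2, by positivity, ?_, ?_⟩
  · intro w hw
    refine h4 ?_
    have h5 : ‖w‖ ≤ min e1 e2 / 2 := by simpa using hw
    have h6 := min_le_right e1 e2
    simp only [mem_ball, dist_zero_right]
    linarith
  · have hK : closedBall (0 : ℂ) (min e1 e2 / 2) ⊆ φ (0 + 1) '' ball 0 1 := by
      intro w hw
      refine h4 ?_
      have h5 : ‖w‖ ≤ min e1 e2 / 2 := by simpa using hw
      have h6 := min_le_right e1 e2
      simp only [mem_ball, dist_zero_right]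
      linarith
    filter_upwards [h.cF 0 _ (isCompact_closedBall _ _) hK (min e1 e2 / 4) (by positivity)] with n hn w hw
    have h5 : ‖w‖ < min e1 e2 / 2 := by simpa using hw
    have h6 := hn w (by simpa using h5.le)
    have h7 : ‖F' 0 w‖ ≤ 1 / 2 * ‖w‖ := by
      have h8 := h3 (y := w) (by
        rw [dist_zero_right]
        have := min_le_left e1 e2
        linarith)
      simpa [h0] using h8
    have h8 := norm_add_le (F n 0 w - F' 0 w) (F' 0 w)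
    rw [sub_add_cancel] at h8
    simp only [mem_ball, dist_zero_right]
    linarith

end Pool.Agent.H23.XW
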